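import Mathlib
import Pool.Agent.H15.Brouwer


/-!
# Unimodular rows over graded subalgebras of Laurent polynomial rings

The question (MP_aa4be7_al, Q1) asks whether `Um_n(A) = e_1 E_n(A)` for every Noetherian ring `R`
of dimension `d`, every graded `R`-subalgebra `A` of `R[X_1^±1, …, X_m^±1]` and every
`n ≥ max (d + 2, 3)`. We disprove it, already for the field `R = ℝ` (so `d = 0`), for every `n ≥ 3`.

The algebra is `A = ℝ[X_1, …, X_n, T, T⁻¹, y]`, where `T = X_(n+1)` and
`y = (T² - X_2² - … - X_n²) / X_1`; its generators are homogeneous, of degrees `1` and `-1`. Since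
`X_1 y + X_2² + … + X_n² = T²` is a unit, the row `(X_1, …, X_n)` is unimodular. All elements of `A`
define continuous functions on the unit sphere of `ℝ^n` (put `T = 1`; there `y = X_1`), and the row
`(X_1, …, X_n)` defines the identity map of the sphere. If the row were the first row of a product
of elementary matrices, the identity map of the sphere would be homotopic in `ℝ^n \ {0}` to a
constant map, which contradicts Brouwer's theorem.
-/

set_option autoImplicit false

namespace Pool.Agent.Results.MP_aa4be7_al.SphereRows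

open Matrix

/-- the Laurent polynomial ring `R[X_1^±1, …, X_m^±1]` -/
abbrev Laurent (R : Type) [CommRing R] (m : ℕ) : Type := AddMonoidAlgebra R (Fin m → ℤ)

/-- the component of degree `k`: the `R`-span of the monomials of total degree `k` -/
noncomputable def component (R : Type) [CommRing R] (m : ℕ) (k : ℤ) : Submodule R (Laurent R m) :=
  Submodule.span R {f | ∃ a : Fin m → ℤ, ∑ i, a i = k ∧ f = AddMonoidAlgebra.single a 1}

/-- `A` is a graded subalgebra: it is the sum of its intersections with the components -/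
def IsGraded {R : Type} [CommRing R] {m : ℕ} (A : Subalgebra R (Laurent R m)) : Prop :=
  Subalgebra.toSubmodule A = ⨆ k : ℤ, Subalgebra.toSubmodule A ⊓ component R m k

/-- unimodular rows -/
def IsUnimodular {A : Type} [CommRing A] {n : ℕ} (v : Fin n → A) : Prop :=
  ∃ w : Fin n → A, ∑ i, v i * w i = 1

/-- the group `E_n(A)` generated by the elementary matrices `1 + c e_ij`, `i ≠ j` -/
def E (n : ℕ) (A : Type) [CommRing A] : Subgroup (GL (Fin n) A) :=
  Subgroup.closure {g | ∃ (i j : Fin n) (c : A), i ≠ j ∧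
    (g : Matrix (Fin n) (Fin n) A) = Matrix.transvection i j c}

/-- `v` is the first row of a matrix in `E_n(A)` -/
def IsElementaryRow {A : Type} [CommRing A] {n : ℕ} (v : Fin n → A) : Prop :=
  ∃ g ∈ E n A, ∀ i j : Fin n, (i : ℕ) = 0 → (g : Matrix (Fin n) (Fin n) A) i j = v j

/-! ### Homogeneous elements -/

section graded

variable {R : Type} [CommRing R] {m : ℕ}

theorem single_mem (a : Fin m → ℤ) (k : ℤ) (h : ∑ i, a i = k) :
    (AddMonoidAlgebra.single a 1 : Laurent R m) ∈ component R m k :=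
  Submodule.subset_span ⟨a, h, rfl⟩

theorem mul_mem_component {f g : Laurent R m} {k l : ℤ} (hf : f ∈ component R m k)
    (hg : g ∈ component R m l) : f * g ∈ component R m (k + l) := by
  unfold component at hf hg
  have h := Submodule.mul_mem_mul hf hg
  rw [Submodule.span_mul_span] at h
  refine Submodule.span_mono ?_ h
  rintro x ⟨y, ⟨a, ha, rfl⟩, z, ⟨b, hb, rfl⟩, rfl⟩
  refine ⟨a + b, ?_, ?_⟩
  · simp only [Pi.add_apply, Finset.sum_add_distrib, ha, hb]
  · simp only [AddMonoidAlgebra.single_mul_single, mul_one]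

/-- a subalgebra generated by homogeneous elements is graded -/
theorem isGraded_adjoin (S : Set (Laurent R m)) (hS : ∀ f ∈ S, ∃ k, f ∈ component R m k) :
    IsGraded (Algebra.adjoin R S) := by
  set A := Algebra.adjoin R S with hA
  set N : Submodule R (Laurent R m) :=
    ⨆ k : ℤ, Subalgebra.toSubmodule A ⊓ component R m k with hN
  have hle : ∀ k, Subalgebra.toSubmodule A ⊓ component R m k ≤ N := fun k => le_iSup (fun k : ℤ =>
    Subalgebra.toSubmodule A ⊓ component R m k) k
  have hmul : ∀ f ∈ N, ∀ g ∈ N, f * g ∈ N := by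
    intro f hf g hg
    refine Submodule.iSup_induction (fun k : ℤ => Subalgebra.toSubmodule A ⊓ component R m k)
      (motive := fun f => f * g ∈ N) hf ?_ ?_ ?_
    · intro k x hx
      refine Submodule.iSup_induction (fun k : ℤ => Subalgebra.toSubmodule A ⊓ component R m k)
        (motive := fun g => x * g ∈ N) hg ?_ ?_ ?_
      · intro l y hy
        exact hle (k + l) ⟨A.mul_mem hx.1 hy.1, mul_mem_component hx.2 hy.2⟩
      · rw [mul_zero]; exact N.zero_mem
      · intro y z hy hz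
        rw [mul_add]; exact N.add_mem hy hz
    · rw [zero_mul]; exact N.zero_mem
    · intro y z hy hz
      rw [add_mul]; exact N.add_mem hy hz
  have hone : (1 : Laurent R m) ∈ N := by
    refine hle 0 ⟨A.one_mem, ?_⟩
    rw [AddMonoidAlgebra.one_def]
    exact single_mem 0 0 (by simp)
  unfold IsGraded
  apply le_antisymm
  · intro f hf
    have hf' : f ∈ Algebra.adjoin R S := hf
    refine Algebra.adjoin_induction (p := fun f _ => f ∈ N) ?_ ?_ ?_ ?_ hf'
    · intro x hx
      obtain ⟨k, hk⟩ := hS x hx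
      exact hle k ⟨Algebra.subset_adjoin hx, hk⟩
    · intro r
      rw [Algebra.algebraMap_eq_smul_one]
      exact N.smul_mem r hone
    · intro x y _ _ hx hy
      exact N.add_mem hx hy
    · intro x y _ _ hx hy
      exact hmul x hx y hy
  · exact iSup_le fun k => inf_le_left

end graded

/-! ### The algebra -/

/-- the Laurent monomial with one exponent `c`, at `i`, and all others zero -/
noncomputable def mon {m : ℕ} (i : Fin m) (c : ℤ) : Laurent ℝ m :=
  AddMonoidAlgebra.single (Pi.single i c) 1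

/-- the element `y = (T ^ 2 - X_2 ^ 2 - … - X_n ^ 2) / X_1`, where `T` is the last variable and
`n = k + 1` -/
noncomputable def yy (k : ℕ) : Laurent ℝ (k + 2) :=
  mon (Fin.castSucc 0) (-1) * (mon (Fin.last (k + 1)) 1 * mon (Fin.last (k + 1)) 1 -
    ∑ i : Fin k, mon (Fin.castSucc i.succ) 1 * mon (Fin.castSucc i.succ) 1)

/-- the generators `X_1, …, X_n`, `T`, `T⁻¹` and `y` -/
noncomputable def gens (k : ℕ) : Set (Laurent ℝ (k + 2)) :=
  Set.range (fun i : Fin (k + 1) => (mon (Fin.castSucc i) 1 : Laurent ℝ (k + 2))) ∪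
    {mon (Fin.last (k + 1)) 1, mon (Fin.last (k + 1)) (-1), yy k}

/-- the algebra -/
noncomputable def alg (k : ℕ) : Subalgebra ℝ (Laurent ℝ (k + 2)) := Algebra.adjoin ℝ (gens k)

theorem mon_mem {m : ℕ} (i : Fin m) (c : ℤ) : (mon i c : Laurent ℝ m) ∈ component ℝ m c :=
  single_mem _ _ (by rw [Finset.sum_pi_single']; simp)

theorem yy_mem (k : ℕ) : yy k ∈ component ℝ (k + 2) 1 := by
  have h : (1 : ℤ) = -1 + (1 + 1) := by norm_num
  rw [h]
  refine mul_mem_component (mon_mem _ _) (Submodule.sub_mem _ (mul_mem_component (mon_mem _ _)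
    (mon_mem _ _)) (Submodule.sum_mem _ fun i _ => mul_mem_component (mon_mem _ _) (mon_mem _ _)))

theorem alg_graded (k : ℕ) : IsGraded (alg k) := by
  refine isGraded_adjoin _ ?_
  rintro f (⟨i, rfl⟩ | rfl | rfl | rfl)
  · exact ⟨1, mon_mem _ _⟩
  · exact ⟨1, mon_mem _ _⟩
  · exact ⟨-1, mon_mem _ _⟩
  · exact ⟨1, yy_mem k⟩

theorem alg_fg (k : ℕ) : (alg k).FG := by
  have h : (gens k).Finite := (Set.finite_range _).union (Set.toFinite _)
  refine ⟨h.toFinset, ?_⟩
  rw [Set.Finite.coe_toFinset]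
  rfl

theorem mon_mul_mon {m : ℕ} (i : Fin m) (c d : ℤ) :
    (mon i c : Laurent ℝ m) * mon i d = mon i (c + d) := by
  unfold mon
  rw [AddMonoidAlgebra.single_mul_single, mul_one, ← Pi.single_add]

theorem mon_zero {m : ℕ} (i : Fin m) : (mon i 0 : Laurent ℝ m) = 1 := by
  unfold mon
  rw [Pi.single_zero, AddMonoidAlgebra.one_def]

/-- the row `(X_1, …, X_n)` -/
noncomputable def row (k : ℕ) (j : Fin (k + 1)) : alg k :=
  ⟨mon (Fin.castSucc j) 1, Algebra.subset_adjoin (Or.inl ⟨j, rfl⟩)⟩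

/-- `T⁻²` -/
noncomputable def tt (k : ℕ) : alg k :=
  ⟨mon (Fin.last (k + 1)) (-1), Algebra.subset_adjoin (Or.inr (Or.inr (Or.inl rfl)))⟩ *
    ⟨mon (Fin.last (k + 1)) (-1), Algebra.subset_adjoin (Or.inr (Or.inr (Or.inl rfl)))⟩

/-- the element `y` -/
noncomputable def yA (k : ℕ) : alg k :=
  ⟨yy k, Algebra.subset_adjoin (Or.inr (Or.inr (Or.inr rfl)))⟩

theorem row_unimodular (k : ℕ) : IsUnimodular (row k) := by
  refine ⟨Fin.cons (yA k * tt k) fun i : Fin k => row k i.succ * tt k, ?_⟩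
  rw [Fin.sum_univ_succ]
  simp only [Fin.cons_zero, Fin.cons_succ]
  apply Subtype.ext
  push_cast
  have h1 : ((row k 0 : alg k) : Laurent ℝ (k + 2)) = mon (Fin.castSucc 0) 1 := rfl
  have h2 : ∀ i : Fin k, ((row k i.succ : alg k) : Laurent ℝ (k + 2)) =
      mon (Fin.castSucc i.succ) 1 := fun i => rfl
  have h3 : ((yA k : alg k) : Laurent ℝ (k + 2)) = yy k := rfl
  have h4 : ((tt k : alg k) : Laurent ℝ (k + 2)) =
      mon (Fin.last (k + 1)) (-1) * mon (Fin.last (k + 1)) (-1) := rfl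
  have h5 : (mon (Fin.castSucc 0) 1 : Laurent ℝ (k + 2)) * mon (Fin.castSucc 0) (-1) = 1 := by
    rw [mon_mul_mon]; exact mon_zero _
  have h6 : (mon (Fin.last (k + 1)) 1 : Laurent ℝ (k + 2)) * mon (Fin.last (k + 1)) (-1) = 1 := by
    rw [mon_mul_mon]; exact mon_zero _
  simp only [h1, h2, h3, h4]
  have h7 : ∀ i : Fin k, (mon (Fin.castSucc i.succ) 1 : Laurent ℝ (k + 2)) *
      (mon (Fin.castSucc i.succ) 1 * (mon (Fin.last (k + 1)) (-1) * mon (Fin.last (k + 1)) (-1))) =
      (mon (Fin.castSucc i.succ) 1 * mon (Fin.castSucc i.succ) 1) *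
        (mon (Fin.last (k + 1)) (-1) * mon (Fin.last (k + 1)) (-1)) := fun i => by ring
  rw [Finset.sum_congr rfl fun i _ => h7 i, ← Finset.sum_mul]
  unfold yy
  linear_combination (mon (Fin.last (k + 1)) 1 * mon (Fin.last (k + 1)) 1 -
    ∑ i : Fin k, mon (Fin.castSucc i.succ) 1 * mon (Fin.castSucc i.succ) 1) *
    (mon (Fin.last (k + 1)) (-1) * mon (Fin.last (k + 1)) (-1)) * h5 +
    (mon (Fin.last (k + 1)) 1 * mon (Fin.last (k + 1)) (-1) + 1) * h6

/-! ### Evaluation -/

/-- the evaluation of Laurent polynomials at a point with nonzero coordinates -/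
noncomputable def ev {m : ℕ} (u : Fin m → ℝ) (hu : ∀ i, u i ≠ 0) : Laurent ℝ m →ₐ[ℝ] ℝ :=
  AddMonoidAlgebra.lift ℝ ℝ (Fin m → ℤ)
    { toFun := fun a => ∏ i, u i ^ (Multiplicative.toAdd a) i
      map_one' := by simp
      map_mul' := fun a b => by
        rw [← Finset.prod_mul_distrib]
        refine Finset.prod_congr rfl fun i _ => ?_
        rw [toAdd_mul, Pi.add_apply, zpow_add₀ (hu i)] }

theorem ev_mon {m : ℕ} (u : Fin m → ℝ) (hu : ∀ i, u i ≠ 0) (i : Fin m) (c : ℤ) :
    ev u hu (mon i c) = u i ^ c := by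
  unfold ev mon
  rw [AddMonoidAlgebra.lift_single]
  simp only [MonoidHom.coe_mk, OneHom.coe_mk, toAdd_ofAdd, one_smul]
  rw [Finset.prod_eq_single i]
  · rw [Pi.single_eq_same]
  · intro j _ hj
    rw [Pi.single_eq_of_ne hj, zpow_zero]
  · intro h; exact absurd (Finset.mem_univ i) h

/-- Euclidean space of dimension `k + 1` -/
abbrev Eu (k : ℕ) : Type := EuclideanSpace ℝ (Fin (k + 1))

/-- the point `(u, 1)` -/
def pt {k : ℕ} (u : Eu k) : Fin (k + 2) → ℝ := Fin.snoc (fun i : Fin (k + 1) => u i) (1 : ℝ)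

theorem pt_last {k : ℕ} (u : Eu k) : pt u (Fin.last (k + 1)) = 1 := by
  unfold pt; rw [Fin.snoc_last]

theorem pt_castSucc {k : ℕ} (u : Eu k) (i : Fin (k + 1)) : pt u (Fin.castSucc i) = u i := by
  unfold pt; rw [Fin.snoc_castSucc]

theorem pt_ne {k : ℕ} {u : Eu k} (hu : ∀ i, u i ≠ 0) : ∀ i, pt u i ≠ 0 := by
  intro i
  refine Fin.lastCases ?_ (fun j => ?_) i
  · rw [pt_last]; exact one_ne_zero
  · rw [pt_castSucc]; exact hu j

/-- on the points of the sphere without zero coordinates, the evaluation of `f` agrees with a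
continuous function -/
def Ext {k : ℕ} (f : Laurent ℝ (k + 2)) : Prop :=
  ∃ g : Eu k → ℝ, Continuous g ∧ ∀ (u : Eu k) (hu : ∀ i, u i ≠ 0), ‖u‖ = 1 →
    ev (pt u) (pt_ne hu) f = g u

theorem sum_sq {k : ℕ} {u : Eu k} (h : ‖u‖ = 1) : u 0 * u 0 = 1 - ∑ i : Fin k, u i.succ * u i.succ := by
  have h1 : ‖u‖ ^ 2 = 1 := by rw [h]; norm_num
  rw [EuclideanSpace.norm_sq_eq, Fin.sum_univ_succ] at h1
  simp only [Real.norm_eq_abs, sq_abs] at h1
  have h2 : ∑ i : Fin k, u i.succ * u i.succ = ∑ i : Fin k, u i.succ ^ 2 :=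
    Finset.sum_congr rfl fun i _ => by ring
  rw [h2]
  nlinarith [h1]

theorem ext_alg {k : ℕ} (f : Laurent ℝ (k + 2)) (hf : f ∈ alg k) : Ext f := by
  unfold alg at hf
  refine Algebra.adjoin_induction (p := fun f _ => Ext f) ?_ ?_ ?_ ?_ hf
  · rintro f (⟨i, rfl⟩ | rfl | rfl | rfl)
    · refine ⟨fun u => u i, by fun_prop, fun u hu _ => ?_⟩
      rw [ev_mon, pt_castSucc, zpow_one]
    · refine ⟨fun _ => 1, continuous_const, fun u hu _ => ?_⟩
      rw [ev_mon, pt_last, _root_.one_zpow]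
    · refine ⟨fun _ => 1, continuous_const, fun u hu _ => ?_⟩
      rw [ev_mon, pt_last, _root_.one_zpow]
    · refine ⟨fun u => u 0, by fun_prop, fun u hu h1 => ?_⟩
      unfold yy
      rw [map_mul, map_sub, map_mul, map_sum]
      simp only [map_mul, ev_mon, pt_last, pt_castSucc, zpow_one, one_mul]
      rw [← sum_sq h1, _root_.zpow_neg_one, ← mul_assoc, inv_mul_cancel₀ (hu 0), one_mul]
  · intro r
    exact ⟨fun _ => r, continuous_const, fun u hu _ => by rw [AlgHom.commutes]; rfl⟩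
  · rintro x y _ _ ⟨g, hg, h1⟩ ⟨g', hg', h1'⟩
    exact ⟨fun u => g u + g' u, hg.add hg', fun u hu h => by rw [map_add, h1 u hu h, h1' u hu h]⟩
  · rintro x y _ _ ⟨g, hg, h1⟩ ⟨g', hg', h1'⟩
    exact ⟨fun u => g u * g' u, hg.mul hg', fun u hu h => by rw [map_mul, h1 u hu h, h1' u hu h]⟩

/-! ### The homotopy -/

/-- the evaluation on the algebra -/
noncomputable def evA {k : ℕ} (u : Eu k) (hu : ∀ i, u i ≠ 0) : alg k →+* ℝ :=
  ((ev (pt u) (pt_ne hu)).comp (alg k).val).toRingHom

/-- the matrix is connected to the identity -/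
def Path {k : ℕ} (g : Matrix (Fin (k + 1)) (Fin (k + 1)) (alg k)) : Prop :=
  ∃ Γ : ℝ → Eu k → Matrix (Fin (k + 1)) (Fin (k + 1)) ℝ,
    Continuous (fun p : ℝ × Eu k => Γ p.1 p.2) ∧ (∀ u, Γ 0 u = 1) ∧ (∀ t u, (Γ t u).det = 1) ∧
    ∀ (u : Eu k) (hu : ∀ i, u i ≠ 0), ‖u‖ = 1 → Γ 1 u = g.map (evA u hu)

theorem path_transvection {k : ℕ} (i j : Fin (k + 1)) (c : alg k) (hij : i ≠ j) :
    Path (transvection i j c) := by
  obtain ⟨g, hg, h1⟩ := ext_alg (c : Laurent ℝ (k + 2)) c.2
  refine ⟨fun t u => transvection i j (t * g u), ?_, ?_, ?_, ?_⟩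
  · refine continuous_matrix fun a b => ?_
    simp only [transvection, Matrix.add_apply, Matrix.single_apply]
    by_cases h : i = a ∧ j = b
    · simp only [h, and_self, if_true]
      fun_prop
    · simp only [h, if_false]
      fun_prop
  · intro u
    change transvection i j (0 * g u) = 1
    rw [zero_mul, transvection_zero]
  · intro t u
    exact det_transvection_of_ne i j hij _
  · intro u hu h
    change transvection i j (1 * g u) = _
    rw [one_mul, ← h1 u hu h]
    ext a b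
    simp only [transvection, Matrix.add_apply, Matrix.map_apply, Matrix.single_apply,
      Matrix.one_apply, map_add]
    congr 1
    · split_ifs <;> simp
    · split_ifs
      · rfl
      · simp

theorem path_one {k : ℕ} : Path (1 : Matrix (Fin (k + 1)) (Fin (k + 1)) (alg k)) := by
  refine ⟨fun _ _ => 1, continuous_const, fun _ => rfl, fun _ _ => det_one, fun u hu h => ?_⟩
  rw [Matrix.map_one _ (map_zero _) (map_one _)]

theorem path_mul {k : ℕ} {g h : Matrix (Fin (k + 1)) (Fin (k + 1)) (alg k)} (hg : Path g)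
    (hh : Path h) : Path (g * h) := by
  obtain ⟨Γ, c1, c2, c3, c4⟩ := hg
  obtain ⟨Δ, d1, d2, d3, d4⟩ := hh
  refine ⟨fun t u => Γ t u * Δ t u, c1.matrix_mul d1, fun u => ?_,
    fun t u => by rw [det_mul, c3, d3, one_mul], fun u hu h => ?_⟩
  · change Γ 0 u * Δ 0 u = 1
    rw [c2, d2, one_mul]
  · change Γ 1 u * Δ 1 u = _
    rw [c4 u hu h, d4 u hu h, Matrix.map_mul]

theorem path_inv {k : ℕ} {g : GL (Fin (k + 1)) (alg k)}
    (hg : Path (g : Matrix (Fin (k + 1)) (Fin (k + 1)) (alg k))) :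
    Path ((g⁻¹ : GL (Fin (k + 1)) (alg k)) : Matrix (Fin (k + 1)) (Fin (k + 1)) (alg k)) := by
  obtain ⟨Γ, c1, c2, c3, c4⟩ := hg
  refine ⟨fun t u => (Γ t u).adjugate, c1.matrix_adjugate, fun u => ?_,
    fun t u => by rw [det_adjugate, c3, one_pow], fun u hu h => ?_⟩
  · change (Γ 0 u).adjugate = 1
    rw [c2, adjugate_one]
  have h1 : ((g⁻¹ : GL (Fin (k + 1)) (alg k)) : Matrix (Fin (k + 1)) (Fin (k + 1)) (alg k)).map
      (evA u hu) * Γ 1 u = 1 := by
    rw [c4 u hu h, ← Matrix.map_mul, ← Units.val_mul, inv_mul_cancel, Units.val_one,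
      Matrix.map_one _ (map_zero _) (map_one _)]
  have h2 : Γ 1 u * (Γ 1 u).adjugate = 1 := by
    rw [mul_adjugate, c3, one_smul]
  calc (Γ 1 u).adjugate = 1 * (Γ 1 u).adjugate := (one_mul _).symm
    _ = _ := by rw [← h1, Matrix.mul_assoc, h2, Matrix.mul_one]

theorem path_of_mem {k : ℕ} {g : GL (Fin (k + 1)) (alg k)} (hg : g ∈ E (k + 1) (alg k)) :
    Path (g : Matrix (Fin (k + 1)) (Fin (k + 1)) (alg k)) := by
  unfold E at hg
  refine Subgroup.closure_induction (p := fun (g : GL (Fin (k + 1)) (alg k)) _ =>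
    Path (g : Matrix (Fin (k + 1)) (Fin (k + 1)) (alg k))) ?_ ?_ ?_ ?_ hg
  · rintro x ⟨i, j, c, hij, hx⟩
    rw [hx]
    exact path_transvection i j c hij
  · rw [Units.val_one]; exact path_one
  · intro x y _ _ hx hy
    rw [Units.val_mul]; exact path_mul hx hy
  · intro x _ hx
    exact path_inv hx

/-! ### The degree argument -/

/-- the sign of a real number, with `sgn 0 = 1` -/
noncomputable def sgn (x : ℝ) : ℝ := if 0 ≤ x then 1 else -1

theorem add_sgn_ne (x ε : ℝ) (hε : 0 < ε) : x + ε * sgn x ≠ 0 := by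
  unfold sgn
  split_ifs with h
  · have : 0 < x + ε * 1 := by linarith
    exact this.ne'
  · push Not at h
    have : x + ε * (-1) < 0 := by linarith
    exact this.ne

/-- a continuous function on Euclidean space which vanishes at the points of the sphere without
zero coordinates vanishes on the sphere -/
theorem vanish {k : ℕ} (φ : Eu k → ℝ) (hφ : Continuous φ)
    (h : ∀ u : Eu k, (∀ i, u i ≠ 0) → ‖u‖ = 1 → φ u = 0) (u : Eu k) (hu : ‖u‖ = 1) : φ u = 0 := by
  let s : Eu k := WithLp.toLp 2 fun i => sgn (u i)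
  let c : ℝ → Eu k := fun ε => u + ε • s
  have hc : Continuous c := by fun_prop
  have hci : ∀ ε i, c ε i = u i + ε * sgn (u i) := fun ε i => rfl
  have hc0 : c 0 = u := by simp [c]
  have hev : ∀ᶠ ε in nhdsWithin (0 : ℝ) (Set.Ioi 0), φ (‖c ε‖⁻¹ • c ε) = 0 := by
    filter_upwards [self_mem_nhdsWithin] with ε hε
    have hne : ∀ i, c ε i ≠ 0 := fun i => by rw [hci]; exact add_sgn_ne _ _ hε
    have hcne : c ε ≠ 0 := by
      intro h0
      apply hne 0
      rw [h0]; rfl
    have hn : ‖c ε‖ ≠ 0 := norm_ne_zero_iff.2 hcne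
    apply h
    · intro i
      have : (‖c ε‖⁻¹ • c ε) i = ‖c ε‖⁻¹ * c ε i := rfl
      rw [this]
      exact mul_ne_zero (inv_ne_zero hn) (hne i)
    · rw [norm_smul, norm_inv, norm_norm, inv_mul_cancel₀ hn]
  have hcont : ContinuousAt (fun ε => φ (‖c ε‖⁻¹ • c ε)) 0 := by
    apply hφ.continuousAt.comp
    have a1 : ContinuousAt (fun ε => ‖c ε‖⁻¹) 0 := by
      apply ContinuousAt.inv₀ hc.norm.continuousAt
      rw [hc0, hu]; exact one_ne_zero
    exact a1.smul hc.continuousAt
  have h1 : Filter.Tendsto (fun ε => φ (‖c ε‖⁻¹ • c ε)) (nhdsWithin (0 : ℝ) (Set.Ioi 0))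
      (nhds (φ (‖c 0‖⁻¹ • c 0))) := hcont.tendsto.mono_left nhdsWithin_le_nhds
  have h2 : Filter.Tendsto (fun ε => φ (‖c ε‖⁻¹ • c ε)) (nhdsWithin (0 : ℝ) (Set.Ioi 0))
      (nhds 0) := tendsto_const_nhds.congr' (hev.mono fun ε hε => hε.symm)
  have h3 := tendsto_nhds_unique h1 h2
  rw [hc0, hu, inv_one, one_smul] at h3
  exact h3

theorem row_not_elementary (k : ℕ) : ¬ IsElementaryRow (row k) := by
  rintro ⟨g, hg, h0⟩
  obtain ⟨Γ, c1, c2, c3, c4⟩ := path_of_mem hg
  have hrow : ∀ (u : Eu k), ‖u‖ = 1 → ∀ j, Γ 1 u 0 j = u j := by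
    intro u hu j
    have hcont : Continuous fun u : Eu k => Γ 1 u 0 j - u j := by
      have h1 : Continuous fun u : Eu k => Γ 1 u := c1.comp (continuous_const.prodMk continuous_id)
      have h2 : Continuous fun u : Eu k => Γ 1 u 0 j := by fun_prop
      fun_prop
    have := vanish _ hcont (fun v hv h1 => ?_) u hu
    · exact sub_eq_zero.1 this
    · rw [c4 v hv h1, Matrix.map_apply, h0 0 j rfl, sub_eq_zero]
      change ev (pt v) (pt_ne hv) (mon (Fin.castSucc j) 1) = v j
      rw [ev_mon, pt_castSucc, zpow_one]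
  -- the map of Euclidean space
  let t : Eu k → ℝ := fun x => max 0 (min 1 (2 * ‖x‖ - 1))
  let w : Eu k → Eu k := fun x => (max ‖x‖ (1 / 2))⁻¹ • x
  let F : Eu k → Eu k := fun x => max ‖x‖ 1 • (WithLp.toLp 2 fun j => Γ (t x) (w x) 0 j : Eu k)
  have ht : Continuous t := by fun_prop
  have hw : Continuous w := by
    have a1 : Continuous fun x : Eu k => (max ‖x‖ (1 / 2))⁻¹ := by
      apply Continuous.inv₀ (by fun_prop)
      intro x
      have : (0 : ℝ) < max ‖x‖ (1 / 2) := lt_max_of_lt_right (by norm_num)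
      exact this.ne'
    exact a1.smul continuous_id
  have hΓ : Continuous fun x => Γ (t x) (w x) := c1.comp (ht.prodMk hw)
  have hF : Continuous F := by
    have a1 : Continuous fun x : Eu k => max ‖x‖ 1 := by fun_prop
    have h1 : Continuous fun x => (fun j => Γ (t x) (w x) 0 j : Fin (k + 1) → ℝ) := by
      apply continuous_pi
      intro j
      fun_prop
    exact a1.smul ((PiLp.continuous_toLp 2 _).comp h1)
  obtain ⟨x, hx⟩ := Pool.Agent.H15.Brouwer.exists_zero F hF (fun x hx => by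
    have h1 : t x = 1 := by
      simp only [t]
      rw [min_eq_left (by linarith), max_eq_right zero_le_one]
    have h2 : w x = ‖x‖⁻¹ • x := by
      simp only [w]
      rw [max_eq_left (by linarith)]
    have h3 : max ‖x‖ 1 = ‖x‖ := max_eq_left hx
    have h4 : ‖x‖ ≠ 0 := by linarith
    have h5 : ‖w x‖ = 1 := by
      rw [h2, norm_smul, norm_inv, norm_norm, inv_mul_cancel₀ h4]
    ext j
    have h6 : F x j = max ‖x‖ 1 * Γ (t x) (w x) 0 j := rfl
    rw [h6, h1, h3, hrow (w x) h5 j, h2]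
    have h7 : (‖x‖⁻¹ • x) j = ‖x‖⁻¹ * x j := rfl
    rw [h7, ← mul_assoc, mul_inv_cancel₀ h4, one_mul])
  have h8 : (0 : ℝ) < max ‖x‖ 1 := lt_max_of_lt_right one_pos
  have h9 : ∀ j, Γ (t x) (w x) 0 j = 0 := by
    intro j
    have h10 : F x j = max ‖x‖ 1 * Γ (t x) (w x) 0 j := rfl
    rw [hx] at h10
    have h11 : (0 : Eu k) j = 0 := rfl
    rw [h11] at h10
    rcases mul_eq_zero.1 h10.symm with h12 | h12
    · exact absurd h12 h8.ne'
    · exact h12
  have h13 := det_eq_zero_of_row_eq_zero 0 h9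
  rw [c3] at h13
  exact one_ne_zero h13

/-- **The equality `Um_n(A) = e_1 E_n(A)` fails for graded subalgebras of Laurent polynomial rings
over a field, for every `n ≥ 3`.** The Noetherian ring `ℝ` has dimension `0`. For every `n ≥ 3` there
is a finitely generated graded `ℝ`-subalgebra `A` of `ℝ[X_1^±1, …, X_(n+1)^±1]` and a unimodular row
of length `n` over `A` which is not the first row of a matrix in `E_n(A)`. -/
theorem result : IsNoetherianRing ℝ ∧ ringKrullDim ℝ = 0 ∧
    ∀ n : ℕ, 3 ≤ n → ∃ (A : Subalgebra ℝ (Laurent ℝ (n + 1))) (v : Fin n → A),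
      A.FG ∧ IsGraded A ∧ IsUnimodular v ∧ ¬ IsElementaryRow v := by
  refine ⟨inferInstance, ringKrullDim_eq_zero_of_field ℝ, fun n hn => ?_⟩
  obtain ⟨k, rfl⟩ : ∃ k, n = k + 1 := ⟨n - 1, by omega⟩
  exact ⟨alg k, row k, alg_fg k, alg_graded k, row_unimodular k, row_not_elementary k⟩

end Pool.Agent.Results.MP_aa4be7_al.SphereRows
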